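import Mathlib
import Pool.Agent.N753.DR.Stm6

/-!
# Project PC: local heights at finite places via elimination
-/

set_option autoImplicit false

namespace Pool.Agent.N93.PC

open NumberField IsDedekindDomain Module
open Pool.Agent.N753.DR

/-- denominators of one number -/
theorem den {K : Type} [Field K] [NumberField K] (a : K) :
    ∃ (N : ℕ) (b : 𝓞 K), N ≠ 0 ∧ algebraMap (𝓞 K) K b = (N : K) * a := by
  obtain ⟨y, hy, hi⟩ := IsAlgebraic.exists_integral_multiple (R := ℤ) (z := a)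
    ((IsFractionRing.isAlgebraic_iff ℤ ℚ K).2 (Algebra.IsAlgebraic.isAlgebraic a))
  let B : 𝓞 K := ⟨y • a, hi⟩
  have h1 : algebraMap (𝓞 K) K B = y • a := rfl
  rcases le_total 0 y with h | h
  · refine ⟨y.natAbs, B, by simpa using hy, ?_⟩
    rw [h1, zsmul_eq_mul]
    have : ((y.natAbs : ℤ) : K) = (y : K) := by rw [Int.natAbs_of_nonneg h]
    rw [← this, Int.cast_natCast]
  · refine ⟨y.natAbs, -B, by simpa using hy, ?_⟩
    rw [map_neg, h1, zsmul_eq_mul]
    have : ((y.natAbs : ℤ) : K) = ((-y : ℤ) : K) := by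
      rw [Int.ofNat_natAbs_of_nonpos h]
    rw [← Int.cast_natCast, this, Int.cast_neg, neg_mul]

/-- denominators of a polynomial -/
theorem clear {K : Type} [Field K] [NumberField K] {σ : Type} (G : MvPolynomial σ K) :
    ∃ (N : ℕ) (G0 : MvPolynomial σ (𝓞 K)), N ≠ 0 ∧
      MvPolynomial.map (algebraMap (𝓞 K) K) G0 = MvPolynomial.C (N : K) * G := by
  induction G using MvPolynomial.induction_on' with
  | monomial u a =>
    obtain ⟨N, b, hN, hb⟩ := den a
    exact ⟨N, MvPolynomial.monomial u b, hN, by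
      rw [MvPolynomial.map_monomial, hb, MvPolynomial.C_mul_monomial]⟩
  | add p q hp hq =>
    obtain ⟨N, P, hN, hP⟩ := hp
    obtain ⟨M, Q, hM, hQ⟩ := hq
    refine ⟨N * M, MvPolynomial.C (M : 𝓞 K) * P + MvPolynomial.C (N : 𝓞 K) * Q,
      mul_ne_zero hN hM, ?_⟩
    rw [map_add, map_mul, map_mul, hP, hQ, MvPolynomial.map_C, MvPolynomial.map_C]
    have e1 : (algebraMap (𝓞 K) K) (M : 𝓞 K) = (M : K) := map_natCast _ _
    have e2 : (algebraMap (𝓞 K) K) (N : 𝓞 K) = (N : K) := map_natCast _ _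
    rw [e1, e2, Nat.cast_mul, MvPolynomial.C_mul]
    ring

section flip

variable {m : ℕ} (J : Finset (Fin m)) (q : Fin m → ℕ)

/-- reversed exponents -/
noncomputable def fl (a : Fin m →₀ ℕ) : Fin m →₀ ℕ :=
  Finsupp.equivFunOnFinite.symm fun i => if i ∈ J then q i - a i else a i

theorem fl_apply (a : Fin m →₀ ℕ) (i : Fin m) : fl J q a i = if i ∈ J then q i - a i else a i :=
  rfl

variable {A : Type} [CommRing A]

/-- the reversed polynomial -/
noncomputable def flG (G : MvPolynomial (Fin m) A) : MvPolynomial (Fin m) A :=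
  ∑ a ∈ G.support, MvPolynomial.monomial (fl J q a) (MvPolynomial.coeff a G)

theorem le_of_mem {G : MvPolynomial (Fin m) A} (hq : ∀ i, G.degreeOf i ≤ q i) {a : Fin m →₀ ℕ}
    (ha : a ∈ G.support) (i : Fin m) : a i ≤ q i :=
  (MvPolynomial.monomial_le_degreeOf i ha).trans (hq i)

theorem flG_ne {G : MvPolynomial (Fin m) A} (hq : ∀ i, G.degreeOf i ≤ q i) (hG : G ≠ 0) :
    flG J q G ≠ 0 := by
  classical
  obtain ⟨a, ha⟩ := (MvPolynomial.support_nonempty.2 hG)
  intro h0
  have h1 : MvPolynomial.coeff (fl J q a) (flG J q G) = MvPolynomial.coeff a G := by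
    rw [flG, MvPolynomial.coeff_sum, Finset.sum_eq_single a]
    · rw [MvPolynomial.coeff_monomial, if_pos rfl]
    · intro b hb hba
      rw [MvPolynomial.coeff_monomial, if_neg]
      intro he
      apply hba
      ext i
      have h2 := DFunLike.congr_fun he i
      rw [fl_apply, fl_apply] at h2
      have h3 := le_of_mem q hq ha i
      have h4 := le_of_mem q hq hb i
      split_ifs at h2 <;> omega
    · intro h; exact absurd ha h
  rw [h0, MvPolynomial.coeff_zero] at h1
  exact (MvPolynomial.mem_support_iff.1 ha) h1.symm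

theorem flG_eval {L : Type} [Field L] (φ : A →+* L) {G : MvPolynomial (Fin m) A}
    (hq : ∀ i, G.degreeOf i ≤ q i) (x z : Fin m → L) (h1 : ∀ i ∈ J, x i ≠ 0 ∧ z i = (x i)⁻¹)
    (h2 : ∀ i ∉ J, z i = x i) :
    (∏ i ∈ J, x i ^ q i) * MvPolynomial.eval₂ φ z (flG J q G) = MvPolynomial.eval₂ φ x G := by
  classical
  have e1 : MvPolynomial.eval₂ φ z (flG J q G) =
      ∑ a ∈ G.support, φ (MvPolynomial.coeff a G) * ∏ i, z i ^ (fl J q a i) := by
    rw [flG, ← MvPolynomial.coe_eval₂Hom, map_sum]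
    refine Finset.sum_congr rfl fun a _ => ?_
    rw [MvPolynomial.coe_eval₂Hom, MvPolynomial.eval₂_monomial]
    congr 1
    rw [Finsupp.prod_fintype _ _ (fun i => pow_zero _)]
  rw [e1, MvPolynomial.eval₂_eq', Finset.mul_sum]
  refine Finset.sum_congr rfl fun a ha => ?_
  have e2 : ∏ i ∈ J, x i ^ q i = ∏ i, if i ∈ J then x i ^ q i else 1 := by
    rw [Finset.prod_ite_mem, Finset.univ_inter]
  rw [e2, mul_left_comm, ← Finset.prod_mul_distrib]
  congr 1
  refine Finset.prod_congr rfl fun i _ => ?_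
  rw [fl_apply]
  split_ifs with hi
  · obtain ⟨hx, hz⟩ := h1 i hi
    have h3 := le_of_mem q hq ha i
    rw [hz, inv_pow, ← div_eq_mul_inv, div_eq_iff (pow_ne_zero _ hx), ← pow_add]
    congr 1
    omega
  · rw [h2 i hi, one_mul]

end flip

/-- reversed coefficients -/
def rv {m : ℕ} (r : Fin m → ℕ) (J : Finset (Fin m)) (s : Σ i, Fin (r i + 1)) :
    Σ i, Fin (r i + 1) :=
  if s.1 ∈ J then ⟨s.1, Fin.rev s.2⟩ else s

theorem rv_inv {m : ℕ} (r : Fin m → ℕ) (J : Finset (Fin m)) :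
    Function.Involutive (rv r J) := by
  rintro ⟨i, j⟩
  by_cases h : i ∈ J
  · have e1 : rv r J ⟨i, j⟩ = ⟨i, Fin.rev j⟩ := if_pos h
    have e2 : rv r J ⟨i, Fin.rev j⟩ = ⟨i, Fin.rev (Fin.rev j)⟩ := if_pos h
    rw [e1, e2, Fin.rev_rev]
  · have e1 : rv r J ⟨i, j⟩ = ⟨i, j⟩ := if_neg h
    rw [e1, e1]

theorem mk_le_one {L : Type} [Field L] [NumberField L] (w : HeightOneSpectrum (𝓞 L)) (y : L) :
    FinitePlace.mk w y ≤ 1 ↔ w.valuation L y ≤ 1 := by
  rw [FinitePlace.mk_apply, FinitePlace.norm_embedding', ← NNReal.coe_one, NNReal.coe_le_coe]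
  exact WithZeroMulInt.toNNReal_le_one_iff (HeightOneSpectrum.one_lt_absNorm_nnreal w)

theorem int_le_one {L : Type} [Field L] [NumberField L] (w : HeightOneSpectrum (𝓞 L)) {y : L}
    (hy : IsIntegral ℤ y) : FinitePlace.mk w y ≤ 1 := by
  rw [FinitePlace.mk_apply]
  exact FinitePlace.norm_le_one L w (⟨y, hy⟩ : 𝓞 L)

theorem t (h : StmElim) : StmLocW := by
  classical
  intro K _ _ m r q G hr hG hq
  obtain ⟨N, G0, hN, hG0⟩ := clear G
  have hNK : (N : K) ≠ 0 := Nat.cast_ne_zero.2 hN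
  have hG00 : G0 ≠ 0 := by
    rintro rfl
    rw [map_zero] at hG0
    exact mul_ne_zero ((MvPolynomial.C_ne_zero).2 hNK) hG hG0.symm
  have hq0 : ∀ i, G0.degreeOf i ≤ q i := by
    intro i
    have e1 : (MvPolynomial.map (algebraMap (𝓞 K) K) G0).degreeOf i = G0.degreeOf i := by
      rw [MvPolynomial.degreeOf_eq_sup, MvPolynomial.degreeOf_eq_sup,
        MvPolynomial.support_map_of_injective _ (FaithfulSMul.algebraMap_injective (𝓞 K) K)]
    rw [← e1, hG0]
    exact (MvPolynomial.degreeOf_C_mul_le _ _ _).trans (hq i)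
  choose R hR0 hR using fun J : Finset (Fin m) =>
    h K m r (flG J q G0) hr (flG_ne J q hq0 hG00)
  let e := Fintype.equivFin (Finset (Fin m))
  refine ⟨Fintype.card (Finset (Fin m)), fun t =>
    MvPolynomial.rename (rv r (e.symm t)) (R (e.symm t)), N, ?_, hN, ?_⟩
  · intro t h0
    exact hR0 _ ((MvPolynomial.rename_eq_zero_iff_of_injective _ (rv_inv r _).injective).1 h0)
  intro L _ _ _ x c hc hGx hRc w
  set F := FinitePlace.mk w with hF
  let J : Finset (Fin m) := Finset.univ.filter fun i => 1 < F (x i)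
  have hJ : ∀ i, i ∈ J ↔ 1 < F (x i) := fun i => by simp [J]
  let z : Fin m → L := fun i => if i ∈ J then (x i)⁻¹ else x i
  have hx0 : ∀ i ∈ J, x i ≠ 0 := by
    rintro i hi h0
    have := (hJ i).1 hi
    rw [h0, map_zero] at this
    linarith
  have hz1 : ∀ i, F (z i) ≤ 1 := by
    intro i
    by_cases hi : i ∈ J
    · have e1 : z i = (x i)⁻¹ := if_pos hi
      rw [e1, map_inv₀]
      exact inv_le_one_of_one_le₀ ((hJ i).1 hi).le
    · have e1 : z i = x i := if_neg hi
      rw [e1]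
      exact not_lt.1 fun h => hi ((hJ i).2 h)
  let O : Subring L := (w.valuation L).integer
  have hO : ∀ y : L, y ∈ O ↔ F y ≤ 1 := fun y => (mk_le_one w y).symm
  let φ : 𝓞 K →+* L := (algebraMap K L).comp (algebraMap (𝓞 K) K)
  have hφi : ∀ a, IsIntegral ℤ (φ a) := fun a =>
    (RingOfIntegers.isIntegral_coe a).map (algebraMap K L).toIntAlgHom
  have hφ : ∀ a, φ a ∈ O := fun a => (hO _).2 (int_le_one w (hφi a))
  let f : 𝓞 K →+* O := φ.codRestrict O hφ
  let _ : Algebra (𝓞 K) O := f.toAlgebra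
  let zO : Fin m → O := fun i => ⟨z i, (hO _).2 (hz1 i)⟩
  let c' : ∀ i, Fin (r i + 1) → 𝓞 K := fun i j => if i ∈ J then c i (Fin.rev j) else c i j
  have hcφ : ∀ i, ∑ j, φ (c i j) * x i ^ (j : ℕ) = 0 := hc
  have hc' : ∀ i, ∑ j, φ (c' i j) * z i ^ (j : ℕ) = 0 := by
    intro i
    by_cases hi : i ∈ J
    · have e1 : z i = (x i)⁻¹ := if_pos hi
      have e2 : ∀ j, c' i j = c i (Fin.rev j) := fun j => if_pos hi
      simp only [e1, e2]
      have e3 : ∑ j, φ (c i (Fin.rev j)) * (x i)⁻¹ ^ (j : ℕ) =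
          (x i)⁻¹ ^ (r i) * ∑ j, φ (c i j) * x i ^ (j : ℕ) := by
        rw [Finset.mul_sum, ← Equiv.sum_comp Fin.revPerm]
        refine Finset.sum_congr rfl fun j _ => ?_
        rw [Fin.revPerm_apply, Fin.rev_rev, Fin.val_rev]
        have hj : (j : ℕ) ≤ r i := Nat.lt_succ_iff.1 j.2
        have e4 : (x i)⁻¹ ^ (r i) = (x i)⁻¹ ^ (r i + 1 - (j + 1)) * (x i)⁻¹ ^ (j : ℕ) := by
          rw [← pow_add]; congr 1; omega
        have e5 : (x i)⁻¹ ^ (j : ℕ) * x i ^ (j : ℕ) = 1 := by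
          rw [← mul_pow, inv_mul_cancel₀ (hx0 i hi), one_pow]
        rw [e4]
        calc φ (c i j) * (x i)⁻¹ ^ (r i + 1 - (j + 1))
            = φ (c i j) * (x i)⁻¹ ^ (r i + 1 - (j + 1)) *
                ((x i)⁻¹ ^ (j : ℕ) * x i ^ (j : ℕ)) := by rw [e5, mul_one]
          _ = _ := by ring
      rw [e3, hcφ, mul_zero]
    · have e1 : z i = x i := if_neg hi
      have e2 : ∀ j, c' i j = c i j := fun j => if_neg hi
      simp only [e1, e2]
      exact hcφ i
  have hcO : ∀ i, ∑ j, algebraMap (𝓞 K) O (c' i j) * zO i ^ (j : ℕ) = 0 := by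
    intro i
    have h1 : O.subtype (∑ j, algebraMap (𝓞 K) O (c' i j) * zO i ^ (j : ℕ)) =
        ∑ j, φ (c' i j) * z i ^ (j : ℕ) := by
      rw [map_sum]
      refine Finset.sum_congr rfl fun j _ => ?_
      rw [map_mul, map_pow]
      rfl
    exact Subtype.ext (h1.trans (hc' i))
  obtain ⟨b, hb⟩ := hR J O zO c' hcO
  have hev : MvPolynomial.eval (fun s => c' s.1 s.2) (R J) =
      MvPolynomial.eval (fun s => c s.1 s.2) (MvPolynomial.rename (rv r J) (R J)) := by
    rw [MvPolynomial.eval_rename]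
    congr 2
    funext s
    obtain ⟨i, j⟩ := s
    by_cases hi : i ∈ J
    · have e1 : rv r J ⟨i, j⟩ = ⟨i, Fin.rev j⟩ := if_pos hi
      rw [Function.comp_apply, e1]
      exact if_pos hi
    · have e1 : rv r J ⟨i, j⟩ = ⟨i, j⟩ := if_neg hi
      rw [Function.comp_apply, e1]
      exact if_neg hi
  have hb2 : φ (MvPolynomial.eval (fun s => c' s.1 s.2) (R J)) =
      (b : L) * MvPolynomial.eval₂ φ z (flG J q G0) := by
    have h1 := congrArg (Subtype.val) hb
    have h2 : ((MvPolynomial.aeval zO (flG J q G0) : O) : L) =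
        MvPolynomial.eval₂ φ z (flG J q G0) := by
      rw [MvPolynomial.aeval_def]
      exact MvPolynomial.eval₂_comp_left O.subtype _ _ _
    rw [← h2]
    exact h1
  have hGz : (∏ i ∈ J, x i ^ q i) * MvPolynomial.eval₂ φ z (flG J q G0) =
      (N : L) * MvPolynomial.aeval x G := by
    rw [flG_eval J q φ hq0 x z (fun i hi => ⟨hx0 i hi, if_pos hi⟩) fun i hi => if_neg hi]
    have h1 := congrArg (MvPolynomial.aeval x) hG0
    rw [map_mul, MvPolynomial.aeval_C, map_natCast] at h1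
    rw [← h1, MvPolynomial.aeval_def, MvPolynomial.eval₂_map]
  have hNL : (N : L) ≠ 0 := Nat.cast_ne_zero.2 hN
  set Gz := MvPolynomial.eval₂ φ z (flG J q G0) with hGzd
  have hGz0 : Gz ≠ 0 := by
    intro h0
    rw [h0, mul_zero] at hGz
    exact mul_ne_zero hNL hGx hGz.symm
  have hP : ∏ i, max (F (x i)) 1 ^ q i = F (∏ i ∈ J, x i ^ q i) := by
    rw [map_prod, ← Finset.prod_filter_mul_prod_filter_not Finset.univ (fun i => 1 < F (x i))]
    have e1 : ∏ i ∈ Finset.univ.filter (fun i => ¬ 1 < F (x i)), max (F (x i)) 1 ^ q i = 1 := by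
      refine Finset.prod_eq_one fun i hi => ?_
      rw [Finset.mem_filter] at hi
      rw [max_eq_right (not_lt.1 hi.2), one_pow]
    rw [e1, mul_one]
    refine Finset.prod_congr rfl fun i hi => ?_
    rw [Finset.mem_filter] at hi
    rw [max_eq_left hi.2.le, map_pow]
  have hFz : 0 < F Gz := FinitePlace.pos_iff.2 hGz0
  have hFN : 0 < F (N : L) := FinitePlace.pos_iff.2 hNL
  have hFG : 0 < F (MvPolynomial.aeval x G) := FinitePlace.pos_iff.2 hGx
  have hquot : (∏ i, max (F (x i)) 1 ^ q i) / F (MvPolynomial.aeval x G) = F (N : L) / F Gz := by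
    rw [hP, div_eq_div_iff hFG.ne' hFz.ne', ← map_mul, hGz, map_mul]
  have hA : ∀ t, 0 ≤ -Real.log (F (algebraMap K L (MvPolynomial.eval (fun s => c s.1 s.2)
      (MvPolynomial.rename (rv r (e.symm t)) (R (e.symm t))) : 𝓞 K))) := by
    intro t
    rw [neg_nonneg]
    exact Real.log_nonpos (apply_nonneg _ _) (int_le_one w (hφi _))
  have hAJ : -Real.log (F Gz) ≤ -Real.log (F (algebraMap K L (MvPolynomial.eval
      (fun s => c s.1 s.2) (MvPolynomial.rename (rv r J) (R J)) : 𝓞 K))) := by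
    rw [neg_le_neg_iff, ← hev]
    have h0 : φ (MvPolynomial.eval (fun s => c' s.1 s.2) (R J)) ≠ 0 := by
      intro h1
      have h2 := hRc (e J)
      simp only [e.symm_apply_apply] at h2
      apply h2
      rw [← hev]
      exact (map_eq_zero_iff φ (((algebraMap K L).injective).comp
        (FaithfulSMul.algebraMap_injective (𝓞 K) K))).1 h1
    refine Real.log_le_log (FinitePlace.pos_iff.2 h0) ?_
    have h3 := congrArg F hb2
    rw [map_mul] at h3
    change F (φ _) ≤ _
    rw [h3]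
    exact mul_le_of_le_one_left hFz.le ((hO _).1 b.2)
  rw [hquot, Real.log_div hFN.ne' hFz.ne']
  have hN1 : Real.log (F (N : L)) ≤ 0 :=
    Real.log_nonpos hFN.le (int_le_one w (by
      have := isIntegral_algebraMap (R := ℤ) (A := L) (x := (N : ℤ))
      simpa using this))
  have hsum := Finset.single_le_sum (f := fun t => -Real.log (F (algebraMap K L
    (MvPolynomial.eval (fun s => c s.1 s.2)
      (MvPolynomial.rename (rv r (e.symm t)) (R (e.symm t))) : 𝓞 K)))) (fun t _ => hA t)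
    (Finset.mem_univ (e J))
  simp only [e.symm_apply_apply] at hsum
  linarith

end Pool.Agent.N93.PC
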